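import Mathlib
import Pool.Agent.Lib.MP_3f2714_al.Defs
import Pool.Agent.Lib.MP_3f2714_al.Recog4

open Pool.Agent.Lib.MP_3f2714_al

theorem Pool.Agent.Results.MP_3f2714_al.FSeqProduct.result.{u} :
    ∃ (Ω₁ Ω₂ : Type) (_ : Infinite Ω₁) (_ : Infinite Ω₂)
      (G₁ : Subgroup (Equiv.Perm Ω₁)) (G₂ : Subgroup (Equiv.Perm Ω₂)),
      IsOligomorphic G₁ ∧ IsPrimitive G₁ ∧ IsOligomorphic G₂ ∧ IsPrimitive G₂ ∧
      ¬ ∃ (Ω : Type u) (_ : Infinite Ω) (G : Subgroup (Equiv.Perm Ω)),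
        IsOligomorphic G ∧ ∀ n : ℕ, 1 ≤ n → F G n = F G₁ n * F G₂ n := by
  refine ⟨ℕ, VV, inferInstance, inferInstance, hyperGroup 11, affGroup VV,
    hyper_oligomorphic 11, hyper_primitive (by norm_num), aff_oligomorphic, aff_primitive, ?_⟩
  rintro ⟨Ω, hΩ, G, hG, h⟩
  have hpos : ∀ n, 1 ≤ n → F G n ≠ 0 := fun n hn => F_pos (hG n hn)
  have e3 : F G 3 = 1 := by
    rw [h 3 (by norm_num), hyper_F_eq_one (by norm_num), aff_F_three]
  have e4 : F G 4 = 2 := by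
    rw [h 4 (by norm_num), hyper_F_eq_one (by norm_num), vv_F_four]
  have e5 : F G 5 ≤ 6 := by
    rw [h 5 (by norm_num), hyper_F_eq_one (by norm_num), one_mul]
    exact aff_F_five
  have e6 : F G 6 ≤ 32 := by
    rw [h 6 (by norm_num), hyper_F_eq_one (by norm_num), one_mul]
    exact aff_F_six
  have e10 : F G 10 = F (affGroup VV) 10 := by
    rw [h 10 (by norm_num), hyper_F_eq_one (by norm_num), one_mul]
  have e11 : 2 * F (affGroup VV) 11 ≤ F G 11 := by
    rw [h 11 (by norm_num)]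
    exact Nat.mul_le_mul_right _ (hyper_F_ge_two 10)
  have e12 : F G 12 ≤ 2 ^ 12 * (2 ^ 10 * F (affGroup VV) 11) := by
    rw [h 12 (by norm_num)]
    exact Nat.mul_le_mul (hyper_F_le 10) (aff_F_succ_le 10)
  obtain ⟨i1, i2, hle⟩ := recognition e3 e4 e5 (hpos 5 (by norm_num)) e6 (hpos 6 (by norm_num))
  have hmain := main_count hle (k := 10) e10 (hpos 10 (by norm_num)) e11 (hpos 12 (by norm_num))
  have hbig := vv_F_eleven
  have hfin : (F (affGroup VV) 11 + 1) * F (affGroup VV) 11 ≤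
      2 ^ 22 * F (affGroup VV) 11 := by
    refine hmain.trans (e12.trans (le_of_eq ?_))
    ring
  have hpos11 : 0 < F (affGroup VV) 11 := by omega
  have := Nat.le_of_mul_le_mul_right hfin hpos11
  omega
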